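import Pool.Agent.PJC.Stmts

/-!
# Squad PJC, row PRJ
-/

set_option autoImplicit false

namespace Pool.Agent.PJC.H2

lemma ex_congr_in {n : ℕ} (s : Side n) {F G : s.A → s.I → ℝ}
    (h : ∀ a, ∑ i, s.w a i * F a i = ∑ i, s.w a i * G a i) : s.ex F = s.ex G := by
  unfold Side.ex
  exact Finset.sum_congr rfl fun a _ => by rw [h a]

theorem prj : PrjStmt := by
  intro n s r S S' R Q L L' hn hs hr hc hR hQ
  have hn0 : (0 : ℝ) ≤ n := Nat.cast_nonneg n
  have hnp : (0 : ℝ) < n := by exact_mod_cast hn
  have hsq : √(n : ℝ) * √n = n := Real.mul_self_sqrt hn0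
  have hsp : 0 < √(n : ℝ) := Real.sqrt_pos.mpr hnp
  have hA : ex2 s r (fun a i b j => A1 s r R Q a i b j * AA s r a i b j) =
      ex2 s r (fun a i b j => (n : ℝ) * (inner ℝ (R a (s.v a i)) (r.v b j) *
        inner ℝ (R a (s.v a i)) (Q b (r.v b j)))) := by
    rw [ex2_comm, ex2_comm]
    refine congrArg r.ex (funext fun b => funext fun j => ?_)
    refine ex_congr_in s fun a => ?_
    have hb := hR.be a (r.v b j) (Q b (r.v b j))
    have e1 : ∑ i, s.w a i * (A1 s r R Q a i b j * AA s r a i b j) =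
        (n : ℝ) * ∑ i, s.w a i * (inner ℝ (s.v a i) (r.v b j) *
          inner ℝ (R a (s.v a i)) (Q b (r.v b j))) := by
      rw [Finset.mul_sum]
      refine Finset.sum_congr rfl fun i _ => ?_
      unfold A1 AA
      linear_combination (s.w a i * inner ℝ (s.v a i) (r.v b j) *
        inner ℝ (R a (s.v a i)) (Q b (r.v b j))) * hsq
    rw [e1, hb, Finset.mul_sum]
    refine Finset.sum_congr rfl fun i _ => ?_
    ring
  have hB : ex2 s r (fun a i b j => (n : ℝ) * (inner ℝ (R a (s.v a i)) (r.v b j) *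
        inner ℝ (R a (s.v a i)) (Q b (r.v b j)))) =
      ex2 s r (fun a i b j => A1 s r R Q a i b j ^ 2) := by
    unfold ex2
    refine congrArg s.ex (funext fun a => funext fun i => ?_)
    refine ex_congr_in r fun b => ?_
    have hb := hQ.be b (R a (s.v a i)) (R a (s.v a i))
    have e1 : ∑ j, r.w b j * ((n : ℝ) * (inner ℝ (R a (s.v a i)) (r.v b j) *
        inner ℝ (R a (s.v a i)) (Q b (r.v b j)))) =
        (n : ℝ) * ∑ j, r.w b j * (inner ℝ (r.v b j) (R a (s.v a i)) *
          inner ℝ (Q b (r.v b j)) (R a (s.v a i))) := by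
      rw [Finset.mul_sum]
      refine Finset.sum_congr rfl fun j _ => ?_
      rw [real_inner_comm (R a (s.v a i)) (r.v b j),
        real_inner_comm (R a (s.v a i)) (Q b (r.v b j))]
      ring
    rw [e1, hb, Finset.mul_sum]
    refine Finset.sum_congr rfl fun j _ => ?_
    unfold A1
    rw [real_inner_comm (R a (s.v a i)) (Q b (r.v b j))]
    linear_combination (-(r.w b j * inner ℝ (R a (s.v a i)) (Q b (r.v b j)) ^ 2)) * hsq
  have h1 := hA.trans hB
  refine ⟨h1, ?_⟩
  have h2 : ex2 s r (fun a i b j => (AA s r a i b j - A1 s r R Q a i b j) ^ 2) =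
      ex2 s r (fun a i b j => AA s r a i b j ^ 2) -
        ex2 s r (fun a i b j => A1 s r R Q a i b j ^ 2) := by
    have e1 : ex2 s r (fun a i b j => (AA s r a i b j - A1 s r R Q a i b j) ^ 2) =
        ex2 s r (fun a i b j => (AA s r a i b j ^ 2 + A1 s r R Q a i b j ^ 2) -
          2 * (A1 s r R Q a i b j * AA s r a i b j)) := by
      refine congrArg (ex2 s r) (funext fun a => funext fun i => funext fun b =>
        funext fun j => ?_)
      ring
    rw [e1, ex2_sub, ex2_add, ex2_mul_left, h1]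
    ring
  have h3 : ex2 s r (fun a i b j => AA s r a i b j ^ 2) ≤ 1 := by
    have h4 := ex2_mono s r hs hr (F := fun a i b j => AA s r a i b j ^ 2)
      (G := fun _ _ _ _ => (1 : ℝ)) (by
        intro a i b j
        have h5 := hc.pt a i b j
        have h6 : |AA s r a i b j| ≤ 1 := by
          unfold AA
          rw [abs_mul, abs_of_pos hsp]
          calc √(n : ℝ) * |inner ℝ (s.v a i) (r.v b j)| ≤ √(n : ℝ) * (1 / √(n : ℝ)) :=
                mul_le_mul_of_nonneg_left h5 hsp.le
            _ = 1 := by field_simp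
        exact (sq_le_one_iff_abs_le_one _).mpr h6)
    rwa [ex2_const s r hs hr] at h4
  rw [h2]
  linarith

end Pool.Agent.PJC.H2
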